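import Pool.Agent.Helper94.FL.Path

/-!
Project FL, module FL-7: homotopy invariance of Bousfield-Kan homotopy limits.
-/

open CategoryTheory MonoidalCategory Simplicial Opposite Limits HomotopicalAlgebra

set_option autoImplicit false

namespace Pool.Agent.Helper94.FL

open _root_.FL Pool.Agent.Helper45.FL2

theorem W_lift {J : Type} [SmallCategory J] {G G' : SP J} (q : G ⟶ G')
    (hq : ∀ j, TrivFib (q.app j)) (f : W J ⟶ G') :
    ∃ g : W J ⟶ G, g ≫ q = f :=
  FL68.W_lift_of q hq f fun hp _ _ i _ => TrivFib.lift hp i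

variable {J : Type} [SmallCategory J]

/-- lifting against the map of homotopy limits -/
theorem post_lift {G G' P : SP J} (q : G ⟶ G') {K L : SSet.{0}} (i : K ⟶ L) (fst : P ⟶ pw G K)
    (snd : P ⟶ pw G' L) (hP : IsPullback fst snd (pwMap q K) (pwPre G' i))
    (π : pw G L ⟶ P) (h1 : π ≫ fst = pwPre G i) (h2 : π ≫ snd = pwMap q L)
    (hπ : ∀ j, TrivFib (π.app j)) : HasLiftingProperty i (Mp.post (W J) q) := by
  constructor
  intro t b sq
  have h3 : Mp.adj t ≫ q = tnMap (𝟙 (W J)) i ≫ Mp.adj b := by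
    rw [← Mp.adj_post, ← Mp.adj_comp, sq.w]
  have h4 : cur (Mp.adj t) ≫ pwMap q K = cur (Mp.adj b) ≫ pwPre G' i := by
    rw [← cur_map, h3, cur_pre]
  obtain ⟨g, hg⟩ := W_lift π hπ (hP.lift _ _ h4)
  refine ⟨⟨⟨Mp.adj.symm (unc g), ?_, ?_⟩⟩⟩
  · apply Mp.adj.injective
    rw [Mp.adj_comp, Equiv.apply_symm_apply, ← unc_pre, ← h1, ← Category.assoc, hg,
      hP.lift_fst, unc_cur]
  · apply Mp.adj.injective
    rw [Mp.adj_post, Equiv.apply_symm_apply, ← unc_map, ← h2, ← Category.assoc, hg,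
      hP.lift_snd, unc_cur]

/-- the pullback-hom of a boundary inclusion and a trivial fibration -/
theorem pullbackHom_trivFib {E B : SSet.{0}} {p : E ⟶ B} (hp : TrivFib p) (m : ℕ)
    (sq : MonoidalClosed.internalHom.PullbackObjObj (∂Δ[m].ι : (∂Δ[m] : SSet.{0}) ⟶ Δ[m]) p) :
    TrivFib sq.π := by
  intro n
  rw [← MonoidalClosed.internalHomAdjunction₂.hasLiftingProperty_iff
    (SSet.Subcomplex.unionProd.pushoutObjObj.{0} ∂Δ[m] ∂Δ[n])]
  have h : (MorphismProperty.monomorphisms SSet.{0}).rlp p := by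
    rw [SSet.rlp_monomorphisms]
    rintro _ _ _ ⟨n⟩
    exact hp n
  rw [SSet.Subcomplex.unionProd.pushoutObjObj_ι]
  have hm : Mono (SSet.Subcomplex.ι (SSet.Subcomplex.unionProd.{0} ∂Δ[m] ∂Δ[n])) := by
    infer_instance
  exact h _ hm

theorem Holim_trivFib {G G' : SP J} (q : G ⟶ G') (hq : ∀ j, TrivFib (q.app j)) :
    TrivFib (Mp.post (W J) q) := by
  intro m
  have hP := IsPullback.of_hasPullback (pwMap q (∂Δ[m] : SSet.{0}))
    (pwPre G' (∂Δ[m].ι : (∂Δ[m] : SSet.{0}) ⟶ Δ[m]))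
  have hw := pw_comm q (∂Δ[m].ι : (∂Δ[m] : SSet.{0}) ⟶ Δ[m])
  refine post_lift q _ _ _ hP (hP.lift _ _ hw) (hP.lift_fst _ _ hw) (hP.lift_snd _ _ hw) ?_
  intro j
  have hj := hP.map ((evaluation Jᵒᵖ SSet.{0}).obj j)
  exact pullbackHom_trivFib (hq j) m
    { pt := _
      fst := _
      snd := _
      isPullback := hj
      π := (hP.lift _ _ hw).app j
      π_fst := NatTrans.congr_app (hP.lift_fst _ _ hw) j
      π_snd := NatTrans.congr_app (hP.lift_snd _ _ hw) j }

open SSet.modelCategoryQuillen in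
/-- the restriction of a power of a Kan complex along an anodyne extension -/
theorem pre_trivFib {K L X : SSet.{0}} (i : K ⟶ L) (hi : SSet.anodyneExtensions i)
    (hX : SSet.KanComplex X) : TrivFib ((MonoidalClosed.pre i).app X) := by
  intro n
  rw [← MonoidalCategory.Arrow.PushoutProduct.hasLiftingProperty_mk_isTerminal_iff
    terminalIsTerminal]
  have h := SSet.anodyneExtensions_pushoutObjObjι'
    (Functor.PushoutObjObj.ofHasPushout (curriedTensor SSet.{0}) i
      (∂Δ[n].ι : (∂Δ[n] : SSet.{0}) ⟶ Δ[n])) hi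
  have h2 : Fibration (terminal.from X) := (isFibrant_iff X).1 hX
  exact h _ ((fibration_iff _).1 h2)

theorem Holim_kan {G : SP J} (hG : ObjKan G) : SSet.KanComplex (Holim G) := by
  refine kan_of_fill fun n i t => ?_
  obtain ⟨g, hg⟩ := W_lift (pwPre G (Λ[n + 1, i].ι : (Λ[n + 1, i] : SSet.{0}) ⟶ _))
    (fun j => pre_trivFib _ (SSet.anodyneExtensions.horn_ι i) (hG j))
    (cur (Mp.adj (t : (Λ[n + 1, i] : SSet.{0}) ⟶ Mp (W J) G)))
  refine ⟨Mp.adj.symm (unc g), ?_⟩
  apply Mp.adj.injective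
  rw [Mp.adj_comp, Equiv.apply_symm_apply, ← unc_pre, hg, unc_cur]

/-- evaluation at the vertex `0` -/
noncomputable def pev0 (G : SP J) : pw G Δ[1] ⟶ G where
  app j := ev0 (G.obj j)
  naturality _ _ g := ev0_nat (G.map g)

/-- evaluation at the vertex `1` -/
noncomputable def pev1 (G : SP J) : pw G Δ[1] ⟶ G where
  app j := ev1 (G.obj j)
  naturality _ _ g := ev1_nat (G.map g)

/-- the constant path -/
noncomputable def pcst {G G' : SP J} (q : G ⟶ G') : G ⟶ pw G' Δ[1] :=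
  cur (G := G') { app := fun j => CartesianMonoidalCategory.fst (G.obj j) Δ[1] ≫ q.app j
                  naturality := fun j j' g => by
                    have h1 : G.map g ≫ q.app j' = q.app j ≫ G'.map g := q.naturality g
                    change G.map g ▷ Δ[1] ≫ CartesianMonoidalCategory.fst _ _ ≫ q.app j' =
                      (CartesianMonoidalCategory.fst _ _ ≫ q.app j) ≫ G'.map g
                    rw [CartesianMonoidalCategory.whiskerRight_fst_assoc, h1, Category.assoc] }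

lemma pcst_ev0 {G G' : SP J} (q : G ⟶ G') : pcst q ≫ pev0 G' = q := by
  ext1
  ext1 j
  change curS (CartesianMonoidalCategory.fst (G.obj j) Δ[1] ≫ q.app j) ≫ ev0 _ = _
  rw [comp_ev0, uncS_curS, SSet.ι₀_fst_assoc]

lemma pcst_ev1 {G G' : SP J} (q : G ⟶ G') : pcst q ≫ pev1 G' = q := by
  ext1
  ext1 j
  change curS (CartesianMonoidalCategory.fst (G.obj j) Δ[1] ≫ q.app j) ≫ ev1 _ = _
  rw [comp_ev1, uncS_curS, SSet.ι₁_fst_assoc]

theorem post_comp (X : SP J) {G G' G'' : SP J} (p : G ⟶ G') (q : G' ⟶ G'') :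
    Mp.post X (p ≫ q) = Mp.post X p ≫ Mp.post X q := rfl

theorem post_id (X : SP J) (G : SP J) : Mp.post X (𝟙 G) = 𝟙 _ := rfl

theorem Holim_hoEq {G G' : SP J} (hG : ObjKan G) (hG' : ObjKan G') (q : G ⟶ G')
    (hq : ObjHoEq q) : HoEq (Mp.post (W J) q) := by
  obtain ⟨P, p, s, hP⟩ : ∃ (P : SP J) (p : P ⟶ G) (s : P ⟶ pw G' Δ[1]),
      IsPullback p s q (pev0 G') := ⟨_, _, _, IsPullback.of_hasPullback q (pev0 G')⟩
  have hPj : ∀ j, IsPullback (p.app j) (s.app j) (q.app j) (ev0 (G'.obj j)) :=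
    fun j => hP.map ((evaluation Jᵒᵖ SSet.{0}).obj j)
  have hw : 𝟙 G ≫ q = pcst q ≫ pev0 G' := by rw [Category.id_comp, pcst_ev0]
  have hKP : ObjKan P := fun j => path_kan (hPj j) (hG j) (hG' j)
  have hp : ∀ j, TrivFib (p.app j) := fun j => fst_trivFib (hPj j) (hG' j)
  obtain ⟨σ, h1, h2⟩ : ∃ σ : G ⟶ P, σ ≫ p = 𝟙 G ∧ σ ≫ s = pcst q :=
    ⟨hP.lift _ _ hw, hP.lift_fst _ _ hw, hP.lift_snd _ _ hw⟩
  have h3 : σ ≫ s ≫ pev1 G' = q := by rw [← Category.assoc, h2, pcst_ev1]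
  have he : ∀ j, TrivFib ((s ≫ pev1 G').app j) := by
    intro j
    have hσ : HoEq (σ.app j) := by
      refine right_of (hKP j) (TrivFib.hoEq (hp j)) ?_
      have h4 : σ.app j ≫ p.app j = 𝟙 _ := NatTrans.congr_app h1 j
      rw [h4]
      exact id_of _
    have h5 : σ.app j ≫ (s ≫ pev1 G').app j = q.app j := NatTrans.congr_app h3 j
    refine trivFib_of_hoEq (hKP j) (hG' j) (snd_kanFib (hPj j) (hG j) (hG' j)) ?_
    refine left_of (hKP j) hσ ?_
    rw [h5]
    exact hq j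
  have h6 : HoEq (Mp.post (W J) σ) := by
    refine right_of (Holim_kan hKP) (TrivFib.hoEq (Holim_trivFib p hp)) ?_
    rw [← post_comp, h1, post_id]
    exact id_of _
  rw [← h3, post_comp]
  exact comp_of (Holim_kan hG) (Holim_kan hG') h6 (TrivFib.hoEq (Holim_trivFib _ he))

end Pool.Agent.Helper94.FL
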