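import Pool.Agent.Helper45.FL.Triv

/-!
Project FL, module FL-7: the part of the homotopy calculus used for homotopy limits.
-/

open CategoryTheory MonoidalCategory CartesianMonoidalCategory Simplicial Opposite Limits
  HomotopicalAlgebra

set_option autoImplicit false

namespace Pool.Agent.Helper94.FL

open _root_.FL Pool.Agent.Helper45.FL2 SSet SSet.modelCategoryQuillen

theorem symm_of {X Y : SSet.{0}} (hY : SSet.KanComplex Y) {f g : X ⟶ Y} (h : Htpy f g) :
    Htpy g f := by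
  obtain ⟨h, h0, h1⟩ := htpy_elim h
  obtain ⟨H, H0, H1, -⟩ := horn_edge (terminal.from Y) h (fst _ _ ≫ f) (terminal.from _)
    (by rw [h0, ι₀_fst_assoc]) (Subsingleton.elim _ _) (Subsingleton.elim _ _)
  exact htpy_mk H (H0.trans h1) (by rw [H1, ι₁_fst_assoc])

theorem trans_of {X Y : SSet.{0}} (hY : SSet.KanComplex Y) {f g k : X ⟶ Y} (h : Htpy f g)
    (h' : Htpy g k) : Htpy f k := by
  obtain ⟨a, a0, a1⟩ := htpy_elim (symm_of hY h)
  obtain ⟨b, b0, b1⟩ := htpy_elim h'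
  obtain ⟨H, H0, H1, -⟩ := horn_edge (terminal.from Y) a b (terminal.from _)
    (by rw [a0, b0]) (Subsingleton.elim _ _) (Subsingleton.elim _ _)
  exact htpy_mk H (H0.trans a1) (H1.trans b1)

theorem whisk_of {X' X Y Y' : SSet.{0}} (u : X' ⟶ X) {f g : X ⟶ Y} (h : Htpy f g) (v : Y ⟶ Y') :
    Htpy (u ≫ f ≫ v) (u ≫ g ≫ v) := by
  obtain ⟨h, h0, h1⟩ := htpy_elim h
  refine htpy_mk (u ▷ Δ[1] ≫ h ≫ v) ?_ ?_
  · rw [← Category.assoc, ι₀_nat, Category.assoc, ← Category.assoc SSet.ι₀ h, h0]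
  · rw [← Category.assoc, ι₁_nat, Category.assoc, ← Category.assoc SSet.ι₁ h, h1]

theorem comp_of {X Y Z : SSet.{0}} (hX : SSet.KanComplex X) (hZ : SSet.KanComplex Z)
    {f : X ⟶ Y} {g : Y ⟶ Z} (hf : HoEq f) (hg : HoEq g) : HoEq (f ≫ g) := by
  obtain ⟨f', a, b⟩ := hf
  obtain ⟨g', c, d⟩ := hg
  refine ⟨g' ≫ f', ?_, ?_⟩
  · refine trans_of hX ?_ a
    have := whisk_of f c f'
    simpa only [Category.assoc, Category.id_comp] using this
  · refine trans_of hZ ?_ d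
    have := whisk_of g' b g
    simpa only [Category.assoc, Category.id_comp] using this

theorem left_of {X Y Z : SSet.{0}} (hY : SSet.KanComplex Y)
    {f : X ⟶ Y} {g : Y ⟶ Z} (hf : HoEq f) (hfg : HoEq (f ≫ g)) : HoEq g := by
  obtain ⟨f', a, b⟩ := hf
  obtain ⟨k, c, d⟩ := hfg
  refine ⟨k ≫ f, ?_, ?_⟩
  · have h1 : Htpy (g ≫ k ≫ f) (f' ≫ (f ≫ g) ≫ k ≫ f) := by
      refine symm_of hY ?_
      have := whisk_of (𝟙 _) b (g ≫ k ≫ f)
      simpa only [Category.assoc, Category.id_comp] using this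
    have h2 : Htpy (f' ≫ (f ≫ g) ≫ k ≫ f) (f' ≫ f) := by
      have := whisk_of f' c f
      simpa only [Category.assoc, Category.id_comp] using this
    exact trans_of hY h1 (trans_of hY h2 b)
  · rw [Category.assoc]
    exact d

theorem right_of {X Y Z : SSet.{0}} (hY : SSet.KanComplex Y)
    {f : X ⟶ Y} {g : Y ⟶ Z} (hg : HoEq g) (hfg : HoEq (f ≫ g)) : HoEq f := by
  obtain ⟨g', a, b⟩ := hg
  obtain ⟨k, c, d⟩ := hfg
  refine ⟨g ≫ k, ?_, ?_⟩
  · rw [← Category.assoc]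
    exact c
  · have h1 : Htpy ((g ≫ k) ≫ f) ((g ≫ k ≫ f) ≫ g ≫ g') := by
      refine symm_of hY ?_
      have := whisk_of (g ≫ k ≫ f) a (𝟙 _)
      simpa only [Category.assoc, Category.id_comp, Category.comp_id] using this
    have h2 : Htpy ((g ≫ k ≫ f) ≫ g ≫ g') (g ≫ g') := by
      have := whisk_of g d g'
      simpa only [Category.assoc, Category.id_comp] using this
    exact trans_of hY h1 (trans_of hY h2 a)

theorem id_of (X : SSet.{0}) : HoEq (𝟙 X) :=
  ⟨𝟙 X, by rw [Category.comp_id]; exact htpy_refl _, by rw [Category.comp_id]; exact htpy_refl _⟩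

end Pool.Agent.Helper94.FL
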