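import Pool.Agent.Helper94.FL.Power
import Pool.Agent.Helper94.FL.Htpy
import Pool.Agent.Helper68.FL.WLift

/-!
Project FL, module FL-7: path objects.
-/

open CategoryTheory MonoidalCategory CartesianMonoidalCategory Simplicial Opposite Limits
  HomotopicalAlgebra

set_option autoImplicit false

namespace Pool.Agent.Helper94.FL

open _root_.FL Pool.Agent.Helper45.FL2

section SSetLevel

variable {X Y G G' : SSet.{0}}

theorem two_ext (f g : X ⊗ (∂Δ[1] : SSet.{0}) ⟶ Y) (h0 : en X 0 ≫ f = en X 0 ≫ g)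
    (h1 : en X 1 ≫ f = en X 1 ≫ g) : f = g := by
  ext m ⟨x, s⟩
  have key : ∀ i : Fin (1 + 1), SSet.stdSimplex.asOrderHom s.1 0 = i →
      ((x, s) : (X ⊗ (∂Δ[1] : SSet.{0})).obj m) = (en X i).app m x := by
    intro i hi
    refine Prod.ext rfl (Subtype.ext ?_)
    refine SSet.stdSimplex.ext _ _ fun j => ?_
    exact (boundary_const s j 0).trans hi
  rcases fin2 (SSet.stdSimplex.asOrderHom s.1 0) with h | h
  · have h2 := key _ h
    have h3 := ConcreteCategory.congr_hom (NatTrans.congr_app h0 m) x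
    rw [h2]
    exact h3
  · have h2 := key _ h
    have h3 := ConcreteCategory.congr_hom (NatTrans.congr_app h1 m) x
    rw [h2]
    exact h3

lemma en_nat (f : X ⟶ Y) (i : Fin (1 + 1)) :
    en X i ≫ f ▷ (∂Δ[1] : SSet.{0}) = f ≫ en Y i := by
  refine CartesianMonoidalCategory.hom_ext _ _ ?_ ?_
  · rw [Category.assoc, Category.assoc, whiskerRight_fst, en, en, lift_fst_assoc, lift_fst,
      Category.id_comp, Category.comp_id]
  · rw [Category.assoc, Category.assoc, whiskerRight_snd, en, en, lift_snd, lift_snd,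
      SSet.comp_const]

/-- evaluation at the vertex `0` -/
noncomputable def ev0 (X : SSet.{0}) : (ihom Δ[1]).obj X ⟶ X := SSet.ι₀ ≫ uncS (𝟙 _)

/-- evaluation at the vertex `1` -/
noncomputable def ev1 (X : SSet.{0}) : (ihom Δ[1]).obj X ⟶ X := SSet.ι₁ ≫ uncS (𝟙 _)

lemma comp_ev0 (g : Y ⟶ (ihom Δ[1]).obj X) : g ≫ ev0 X = SSet.ι₀ ≫ uncS g := by
  rw [ev0, ← Category.assoc, ← ι₀_nat, Category.assoc, ← uncS_left, Category.comp_id]

lemma comp_ev1 (g : Y ⟶ (ihom Δ[1]).obj X) : g ≫ ev1 X = SSet.ι₁ ≫ uncS g := by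
  rw [ev1, ← Category.assoc, ← ι₁_nat, Category.assoc, ← uncS_left, Category.comp_id]

lemma ev0_nat (b : G ⟶ G') : (ihom Δ[1]).map b ≫ ev0 G' = ev0 G ≫ b := by
  rw [comp_ev0, ev0, ← Category.id_comp ((ihom Δ[1]).map b), uncS_right, Category.assoc]

lemma ev1_nat (b : G ⟶ G') : (ihom Δ[1]).map b ≫ ev1 G' = ev1 G ≫ b := by
  rw [comp_ev1, ev1, ← Category.id_comp ((ihom Δ[1]).map b), uncS_right, Category.assoc]

open SSet.modelCategoryQuillen in
/-- a simplicial set with fillers of horns is a Kan complex -/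
theorem kan_of_fill {X : SSet.{0}} (h : ∀ (n : ℕ) (i : Fin (n + 2))
    (t : (Λ[n + 1, i] : SSet.{0}) ⟶ X), ∃ l : Δ[n + 1] ⟶ X, Λ[n + 1, i].ι ≫ l = t) :
    SSet.KanComplex X := by
  refine (isFibrant_iff X).2 ⟨?_⟩
  rw [SSet.modelCategoryQuillen.fibrations_eq]
  intro _ _ _ hf
  simp only [SSet.modelCategoryQuillen.J, MorphismProperty.iSup_iff] at hf
  obtain ⟨n, ⟨i⟩⟩ := hf
  refine ⟨fun {t _} _ => ?_⟩
  obtain ⟨l, hl⟩ := h n i t
  exact ⟨⟨{ l := l, fac_left := hl, fac_right := by subsingleton }⟩⟩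

open SSet.modelCategoryQuillen in
/-- fillers of horns in a Kan complex -/
theorem fill_of_kan {X : SSet.{0}} (hX : SSet.KanComplex X) (n : ℕ) (i : Fin (n + 2))
    (t : (Λ[n + 1, i] : SSet.{0}) ⟶ X) : ∃ l : Δ[n + 1] ⟶ X, Λ[n + 1, i].ι ≫ l = t := by
  have hf : Fibration (terminal.from X) := (isFibrant_iff X).1 hX
  have hl : HasLiftingProperty (Λ[n + 1, i].ι : (Λ[n + 1, i] : SSet.{0}) ⟶ _)
    (terminal.from X) := SSet.anodyneExtensions.horn_ι i _ ((fibration_iff _).1 hf)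
  have sq : CommSq t (Λ[n + 1, i].ι : (Λ[n + 1, i] : SSet.{0}) ⟶ _)
    (terminal.from X) (terminal.from _) := ⟨Subsingleton.elim _ _⟩
  exact ⟨sq.lift, sq.fac_left⟩

variable {P : SSet.{0}}

/-- the first projection of the mapping path space is a trivial fibration -/
theorem fst_trivFib {q : G ⟶ G'} {fst' : P ⟶ G} {snd' : P ⟶ (ihom Δ[1]).obj G'}
    (hP : IsPullback fst' snd' q (ev0 G')) (hG' : SSet.KanComplex G') : TrivFib fst' := by
  intro n
  constructor
  intro t b sq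
  obtain ⟨h, -, h0, h1⟩ := rel_path (terminal.from G') (∂Δ[n] : (Δ[n] : SSet.{0}).Subcomplex)
    (terminal.from _) (b ≫ q) (uncS (t ≫ snd')) (Subsingleton.elim _ _) (Subsingleton.elim _ _)
    (by rw [← comp_ev0, Category.assoc, ← hP.w, ← Category.assoc, sq.w, Category.assoc])
  have hw : b ≫ q = curS h ≫ ev0 G' := by rw [comp_ev0, uncS_curS, h0]
  refine ⟨⟨{ l := hP.lift _ _ hw, fac_left := ?_, fac_right := hP.lift_fst _ _ hw }⟩⟩
  apply hP.hom_ext
  · rw [Category.assoc, hP.lift_fst, sq.w]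
  · rw [Category.assoc, hP.lift_snd, ← curS_left, h1, curS_uncS]

open SSet.modelCategoryQuillen in
/-- the second projection of the mapping path space is a Kan fibration -/
theorem snd_kanFib {q : G ⟶ G'} {fst' : P ⟶ G} {snd' : P ⟶ (ihom Δ[1]).obj G'}
    (hP : IsPullback fst' snd' q (ev0 G')) (hG : SSet.KanComplex G) (hG' : SSet.KanComplex G') :
    KanFib (snd' ≫ ev1 G') := by
  intro n i
  constructor
  intro t b sq
  obtain ⟨a, ha⟩ := fill_of_kan hG n i (t ≫ fst')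
  have hl : HasLiftingProperty (Λ[n + 1, i].ι : (Λ[n + 1, i] : SSet.{0}) ⟶ _)
    ((MonoidalClosed.pre (∂Δ[1].ι : (∂Δ[1] : SSet.{0}) ⟶ Δ[1])).app G') :=
    SSet.anodyneExtensions.horn_ι i _ ((fibration_iff _).1 inferInstance)
  have sq2 : CommSq (t ≫ snd') (Λ[n + 1, i].ι : (Λ[n + 1, i] : SSet.{0}) ⟶ _)
      ((MonoidalClosed.pre (∂Δ[1].ι : (∂Δ[1] : SSet.{0}) ⟶ Δ[1])).app G')
      (curS (two (a ≫ q) b)) := ⟨by
    rw [← curS_left, ← curS_uncS ((t ≫ snd') ≫ _), uncS_pre]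
    congr 1
    symm
    apply two_ext
    · rw [← Category.assoc, en_nat, Category.assoc, en_zero_two, ← Category.assoc (en _ 0),
        en_zero, ← comp_ev0, ← Category.assoc, ha, Category.assoc, Category.assoc, hP.w]
    · rw [← Category.assoc, en_nat, Category.assoc, en_one_two, ← Category.assoc (en _ 1),
        en_one, ← comp_ev1, Category.assoc, sq.w]⟩
  have key : uncS (sq2.lift ≫
      (MonoidalClosed.pre (∂Δ[1].ι : (∂Δ[1] : SSet.{0}) ⟶ Δ[1])).app G') =
      two (a ≫ q) b := by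
    rw [sq2.fac_right, uncS_curS]
  rw [uncS_pre] at key
  have hw : a ≫ q = sq2.lift ≫ ev0 G' := by
    rw [comp_ev0, ← en_zero, Category.assoc, key, en_zero_two]
  refine ⟨⟨{ l := hP.lift _ _ hw, fac_left := ?_, fac_right := ?_ }⟩⟩
  · apply hP.hom_ext
    · rw [Category.assoc, hP.lift_fst, ha]
    · rw [Category.assoc, hP.lift_snd, sq2.fac_left]
  · rw [← Category.assoc, hP.lift_snd, comp_ev1, ← en_one, Category.assoc, key, en_one_two]

/-- the mapping path space is a Kan complex -/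
theorem path_kan {q : G ⟶ G'} {fst' : P ⟶ G} {snd' : P ⟶ (ihom Δ[1]).obj G'}
    (hP : IsPullback fst' snd' q (ev0 G')) (hG : SSet.KanComplex G) (hG' : SSet.KanComplex G') :
    SSet.KanComplex P := by
  refine kan_of_fill fun n i t => ?_
  obtain ⟨b, hb⟩ := fill_of_kan hG n i (t ≫ fst')
  have hl := TrivFib.kanFib (fst_trivFib hP hG') n i
  have sq : CommSq t (Λ[n + 1, i].ι : (Λ[n + 1, i] : SSet.{0}) ⟶ _) fst' b := ⟨hb.symm⟩
  exact ⟨sq.lift, sq.fac_left⟩

end SSetLevel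

end Pool.Agent.Helper94.FL
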