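import Pool.Agent.Helper58.FL.Tools

/-!
Project FL, module FL-7: powers of simplicial presheaves.
-/

open CategoryTheory MonoidalCategory Opposite Limits HomotopicalAlgebra

set_option autoImplicit false

namespace Pool.Agent.Helper94.FL

open _root_.FL

section SSetLevel

variable {X X' G G' K L : SSet.{0}}

/-- currying of maps of simplicial sets -/
noncomputable def curS (f : X ⊗ K ⟶ G) : X ⟶ (ihom K).obj G :=
  MonoidalClosed.curry ((β_ K X).hom ≫ f)

/-- uncurrying of maps of simplicial sets -/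
noncomputable def uncS (g : X ⟶ (ihom K).obj G) : X ⊗ K ⟶ G :=
  (β_ K X).inv ≫ MonoidalClosed.uncurry g

lemma uncS_curS (f : X ⊗ K ⟶ G) : uncS (curS f) = f := by
  simp [uncS, curS]

lemma curS_uncS (g : X ⟶ (ihom K).obj G) : curS (uncS g) = g := by
  simp [uncS, curS]

lemma curS_left (a : X' ⟶ X) (f : X ⊗ K ⟶ G) : curS (a ▷ K ≫ f) = a ≫ curS f := by
  rw [curS, curS, ← MonoidalClosed.curry_natural_left]
  congr 1

lemma curS_right (f : X ⊗ K ⟶ G) (b : G ⟶ G') : curS (f ≫ b) = curS f ≫ (ihom K).map b := by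
  rw [curS, curS, ← MonoidalClosed.curry_natural_right, Category.assoc]

lemma curS_pre (i : K ⟶ L) (f : X ⊗ L ⟶ G) :
    curS (X ◁ i ≫ f) = curS f ≫ (MonoidalClosed.pre i).app G := by
  rw [curS, curS, MonoidalClosed.curry_pre_app]
  congr 1

lemma uncS_left (a : X' ⟶ X) (g : X ⟶ (ihom K).obj G) : uncS (a ≫ g) = a ▷ K ≫ uncS g := by
  conv_lhs => rw [← curS_uncS g, ← curS_left, uncS_curS]

lemma uncS_right (g : X ⟶ (ihom K).obj G) (b : G ⟶ G') :
    uncS (g ≫ (ihom K).map b) = uncS g ≫ b := by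
  conv_lhs => rw [← curS_uncS g, ← curS_right, uncS_curS]

lemma uncS_pre (i : K ⟶ L) (g : X ⟶ (ihom L).obj G) :
    uncS (g ≫ (MonoidalClosed.pre i).app G) = X ◁ i ≫ uncS g := by
  conv_lhs => rw [← curS_uncS g, ← curS_pre, uncS_curS]

end SSetLevel

variable {J : Type} [SmallCategory J]

/-- the power `G^K` -/
noncomputable def pw (G : SP J) (K : SSet.{0}) : SP J := G ⋙ ihom K

/-- restriction of powers -/
noncomputable def pwPre (G : SP J) {K L : SSet.{0}} (i : K ⟶ L) : pw G L ⟶ pw G K :=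
  Functor.whiskerLeft G (MonoidalClosed.pre i)

/-- functoriality of powers -/
noncomputable def pwMap {G G' : SP J} (q : G ⟶ G') (K : SSet.{0}) : pw G K ⟶ pw G' K :=
  Functor.whiskerRight q (ihom K)

lemma pwPre_app (G : SP J) {K L : SSet.{0}} (i : K ⟶ L) (j : Jᵒᵖ) :
    (pwPre G i).app j = (MonoidalClosed.pre i).app (G.obj j) := rfl

lemma pwMap_app {G G' : SP J} (q : G ⟶ G') (K : SSet.{0}) (j : Jᵒᵖ) :
    (pwMap q K).app j = (ihom K).map (q.app j) := rfl

lemma pw_comm {G G' : SP J} (q : G ⟶ G') {K L : SSet.{0}} (i : K ⟶ L) :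
    pwPre G i ≫ pwMap q K = pwMap q L ≫ pwPre G' i := by
  ext1
  ext1 j
  exact ((MonoidalClosed.pre i).naturality (q.app j)).symm

/-- currying -/
noncomputable def cur {X G : SP J} {K : SSet.{0}} (f : tn X K ⟶ G) : X ⟶ pw G K where
  app j := curS (f.app j : X.obj j ⊗ K ⟶ G.obj j)
  naturality j j' g := by
    have h : X.map g ▷ K ≫ f.app j' = f.app j ≫ G.map g := f.naturality g
    exact (curS_left (X.map g) _).symm.trans ((congrArg curS h).trans (curS_right _ _))

/-- uncurrying -/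
noncomputable def unc {X G : SP J} {K : SSet.{0}} (f : X ⟶ pw G K) : tn X K ⟶ G where
  app j := uncS (f.app j : X.obj j ⟶ (ihom K).obj (G.obj j))
  naturality j j' g := by
    have h : X.map g ≫ f.app j' = f.app j ≫ (ihom K).map (G.map g) := f.naturality g
    exact (uncS_left (X.map g) _).symm.trans ((congrArg uncS h).trans (uncS_right _ _))

lemma unc_cur {X G : SP J} {K : SSet.{0}} (f : tn X K ⟶ G) : unc (cur f) = f := by
  ext1
  ext1 j
  exact uncS_curS _

lemma cur_unc {X G : SP J} {K : SSet.{0}} (f : X ⟶ pw G K) : cur (unc f) = f := by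
  ext1
  ext1 j
  exact curS_uncS _

lemma cur_pre {X G : SP J} {K L : SSet.{0}} (i : K ⟶ L) (f : tn X L ⟶ G) :
    cur (tnMap (𝟙 X) i ≫ f) = cur f ≫ pwPre G i := by
  ext1
  ext1 j
  exact curS_pre i _

lemma cur_map {X G G' : SP J} {K : SSet.{0}} (f : tn X K ⟶ G) (q : G ⟶ G') :
    cur (f ≫ q) = cur f ≫ pwMap q K := by
  ext1
  ext1 j
  exact curS_right _ _

lemma unc_pre {X G : SP J} {K L : SSet.{0}} (i : K ⟶ L) (f : X ⟶ pw G L) :
    unc (f ≫ pwPre G i) = tnMap (𝟙 X) i ≫ unc f := by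
  conv_lhs => rw [← cur_unc f, ← cur_pre, unc_cur]

lemma unc_map {X G G' : SP J} {K : SSet.{0}} (f : X ⟶ pw G K) (q : G ⟶ G') :
    unc (f ≫ pwMap q K) = unc f ≫ q := by
  conv_lhs => rw [← cur_unc f, ← cur_map, unc_cur]

end Pool.Agent.Helper94.FL
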